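import Mathlib
import Pool.Agent.Lib.MP_3d9fc2_ag.Seq

/-!
# A rational map whose degree sequence is not covered by finitely many linear recurrences

For every field `K` and every `N ≥ 4` there is a dominant rational map `f : ℙ^N ⇢ ℙ^N` over `K`
such that for no finite family of constant-coefficient complex linear recurrence sequences
`L⁽¹⁾, …, L⁽ʳ⁾` and no function `ι` one has `deg (f ^ n) = L⁽ι n⁾ n` for all `n ≥ 1`.

The example is the homogenisation of
`(x₁, x₂, x₃, z) ↦ (x₂, x₃, x₁⁴ x₃, z⁴ (x₁² + x₂))` (identity on further coordinates).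
-/

namespace Pool.Agent.Results.MP_3d9fc2_ag.NotPiecewiseRecurrent

open MvPolynomial Pool.Agent.Lib.MP_3d9fc2_ag

universe u

/-- A rational map `ℙ^N ⇢ ℙ^N` over `K` in reduced form: `N + 1` homogeneous polynomials
`poly 0, …, poly N` of one common degree `deg` without a non-unit common factor
(in particular they are not all zero). -/
structure RatMap (K : Type u) [Field K] (N : ℕ) where
  /-- the coordinate polynomials -/
  poly : Fin (N + 1) → MvPolynomial (Fin (N + 1)) K
  /-- the degree of the rational map -/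
  deg : ℕ
  homog : ∀ i, (poly i).IsHomogeneous deg
  reduced : ∀ c : MvPolynomial (Fin (N + 1)) K, (∀ i, c ∣ poly i) → IsUnit c

variable {K : Type u} [Field K] {N : ℕ}

/-- `f` is dominant: `f₀, …, f_N` satisfy no non-trivial polynomial relation. -/
def RatMap.IsDominant (f : RatMap K N) : Prop := AlgebraicIndependent K f.poly

/-- `h` is the composition `f ∘ g`: substituting `g` into `f` gives `h` times a non-zero
polynomial (the removed common factor). -/
def IsComp (f g h : RatMap K N) : Prop :=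
  ∃ c : MvPolynomial (Fin (N + 1)) K, c ≠ 0 ∧ ∀ i, aeval g.poly (f.poly i) = c * h.poly i

/-- `G n` is the `n`-th iterate of `f` for all `n ≥ 1`. -/
def IsIterateSeq (f : RatMap K N) (G : ℕ → RatMap K N) : Prop :=
  G 1 = f ∧ ∀ n, 1 ≤ n → IsComp f (G n) (G (n + 1))

/-- Constant-coefficient linear recurrence sequences `(L n)_{n ≥ 1}` of complex numbers. -/
def IsLinRec (L : ℕ → ℂ) : Prop :=
  ∃ k : ℕ, 1 ≤ k ∧ ∃ c : Fin k → ℂ, ∀ n, 1 ≤ n → L (n + k) = ∑ j : Fin k, c j * L (n + j)

/-- `e` is given by finitely many linear recurrence sequences `L 0, …, L (r - 1)` and an arbitrary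
selection function `ι`. -/
def IsPiecewiseLinRec (e : ℕ → ℕ) : Prop :=
  ∃ (r : ℕ) (L : Fin r → ℕ → ℂ) (ι : ℕ → Fin r),
    (∀ i, IsLinRec (L i)) ∧ ∀ n, 1 ≤ n → (e n : ℂ) = L (ι n) n

/-! ### The integer sequences -/

/-- `1, 1, 1, 5, 9, 13, …` -/
def dd : ℕ → ℕ
  | 0 => 1
  | 1 => 1
  | 2 => 1
  | n + 3 => dd (n + 2) + 4 * dd n

/-- the degree sequence of the example -/
def DD : ℕ → ℕ
  | 0 => 1
  | n + 1 => 4 * DD n + max (2 * dd n) (dd (n + 1))

lemma dd_rec (n : ℕ) : dd (n + 3) = dd (n + 2) + 4 * dd n := by rw [dd]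

lemma DD_rec (n : ℕ) : DD (n + 1) = 4 * DD n + max (2 * dd n) (dd (n + 1)) := by rw [DD]

lemma dd_pos (n : ℕ) : 1 ≤ dd n := by
  induction n using Nat.strong_induction_on with
  | _ n ih =>
    match n with
    | 0 => simp [dd]
    | 1 => simp [dd]
    | 2 => simp [dd]
    | n + 3 =>
      rw [dd_rec]
      have := ih (n + 2) (by omega)
      omega

lemma dd_odd (n : ℕ) : dd n % 2 = 1 := by
  induction n using Nat.strong_induction_on with
  | _ n ih =>
    match n with
    | 0 => simp [dd]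
    | 1 => simp [dd]
    | 2 => simp [dd]
    | n + 3 =>
      rw [dd_rec]
      have := ih (n + 2) (by omega)
      omega

lemma dd_mono (n : ℕ) : dd n ≤ dd (n + 1) := by
  match n with
  | 0 => simp [dd]
  | 1 => simp [dd]
  | n + 2 => rw [show n + 2 + 1 = n + 3 from rfl, dd_rec]; omega

lemma dd_le_DD (n : ℕ) : dd (n + 2) ≤ DD n := by
  induction n with
  | zero => simp [dd, DD]
  | succ n ih =>
    rw [show n + 1 + 2 = n + 3 from rfl, dd_rec, DD_rec]
    have h1 := dd_mono n
    have h2 := dd_mono (n + 1)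
    have h3 : 2 * dd n ≤ max (2 * dd n) (dd (n + 1)) := le_max_left _ _
    rw [show n + 1 + 1 = n + 2 from rfl] at h2
    omega

/-! ### The polynomials -/

section Poly

variable (K) (hN : 4 ≤ N)

/-- the coordinate `X k`, `k ≤ 4` -/
noncomputable def x (k : ℕ) (hk : k ≤ 4) : MvPolynomial (Fin (N + 1)) K :=
  X (⟨k, by omega⟩ : Fin (N + 1))

/-- the monomials `x₁ ∘ hⁿ` -/
noncomputable def M : ℕ → MvPolynomial (Fin (N + 1)) K
  | 0 => x K hN 1 (by omega)
  | 1 => x K hN 2 (by omega)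
  | 2 => x K hN 3 (by omega)
  | n + 3 => M (n + 2) * M n ^ 4

/-- the homogenised factors `x₁² + x₂` composed with `hⁿ` -/
noncomputable def E (n : ℕ) : MvPolynomial (Fin (N + 1)) K :=
  x K hN 0 (by omega) ^ (dd (n + 1) - 2 * dd n) * M K hN n ^ 2 +
    x K hN 0 (by omega) ^ (2 * dd n - dd (n + 1)) * M K hN (n + 1)

/-- the `z`-coordinate of the `n`-th iterate -/
noncomputable def Z : ℕ → MvPolynomial (Fin (N + 1)) K
  | 0 => x K hN 4 (by omega)
  | n + 1 => Z n ^ 4 * E K hN n

/-- the coordinates of the `n`-th iterate -/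
noncomputable def gp (n : ℕ) (i : Fin (N + 1)) : MvPolynomial (Fin (N + 1)) K :=
  match i.val with
  | 0 => x K hN 0 (by omega) ^ DD n
  | 1 => x K hN 0 (by omega) ^ (DD n - dd n) * M K hN n
  | 2 => x K hN 0 (by omega) ^ (DD n - dd (n + 1)) * M K hN (n + 1)
  | 3 => x K hN 0 (by omega) ^ (DD n - dd (n + 2)) * M K hN (n + 2)
  | 4 => Z K hN n
  | _ => x K hN 0 (by omega) ^ (DD n - 1) * X i

lemma x_homog (k : ℕ) (hk : k ≤ 4) : (x K hN k hk).IsHomogeneous 1 := isHomogeneous_X _ _

lemma M_homog (n : ℕ) : (M K hN n).IsHomogeneous (dd n) := by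
  induction n using Nat.strong_induction_on with
  | _ n ih =>
    match n with
    | 0 => exact x_homog K hN 1 _
    | 1 => exact x_homog K hN 2 _
    | 2 => exact x_homog K hN 3 _
    | n + 3 =>
      rw [M, dd_rec]
      have h1 := ih (n + 2) (by omega)
      have h2 := (ih n (by omega)).pow 4
      rw [mul_comm (dd n) 4] at h2
      exact h1.mul h2

lemma E_homog (n : ℕ) : (E K hN n).IsHomogeneous (max (2 * dd n) (dd (n + 1))) := by
  have h0 := x_homog K hN 0 (by omega)
  refine IsHomogeneous.add ?_ ?_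
  · have h1 := (h0.pow (dd (n + 1) - 2 * dd n)).mul ((M_homog K hN n).pow 2)
    have : 1 * (dd (n + 1) - 2 * dd n) + dd n * 2 = max (2 * dd n) (dd (n + 1)) := by
      rcases le_total (2 * dd n) (dd (n + 1)) with h | h
      · rw [max_eq_right h]; omega
      · rw [max_eq_left h]; omega
    rwa [this] at h1
  · have h1 := (h0.pow (2 * dd n - dd (n + 1))).mul (M_homog K hN (n + 1))
    have : 1 * (2 * dd n - dd (n + 1)) + dd (n + 1) = max (2 * dd n) (dd (n + 1)) := by
      rcases le_total (2 * dd n) (dd (n + 1)) with h | h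
      · rw [max_eq_right h]; omega
      · rw [max_eq_left h]; omega
    rwa [this] at h1

lemma Z_homog (n : ℕ) : (Z K hN n).IsHomogeneous (DD n) := by
  induction n with
  | zero => exact x_homog K hN 4 _
  | succ n ih =>
    rw [Z, DD_rec]
    have h2 := ih.pow 4
    rw [mul_comm (DD n) 4] at h2
    exact h2.mul (E_homog K hN n)

lemma gp_homog (n : ℕ) (i : Fin (N + 1)) : (gp K hN n i).IsHomogeneous (DD n) := by
  have h0 := x_homog K hN 0 (by omega)
  have hd2 := dd_le_DD n
  have hd1 := dd_mono (n + 1)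
  have hd0 := dd_mono n
  rw [show n + 1 + 1 = n + 2 from rfl] at hd1
  have hpos := dd_pos n
  rcases i with ⟨i, hi⟩
  match i, hi with
  | 0, _ =>
    have := h0.pow (DD n)
    rwa [one_mul] at this
  | 1, _ =>
    have := (h0.pow (DD n - dd n)).mul (M_homog K hN n)
    rwa [show 1 * (DD n - dd n) + dd n = DD n by omega] at this
  | 2, _ =>
    have := (h0.pow (DD n - dd (n + 1))).mul (M_homog K hN (n + 1))
    rwa [show 1 * (DD n - dd (n + 1)) + dd (n + 1) = DD n by omega] at this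
  | 3, _ =>
    have := (h0.pow (DD n - dd (n + 2))).mul (M_homog K hN (n + 2))
    rwa [show 1 * (DD n - dd (n + 2)) + dd (n + 2) = DD n by omega] at this
  | 4, _ => exact Z_homog K hN n
  | j + 5, hj =>
    have := (h0.pow (DD n - 1)).mul (isHomogeneous_X K (⟨j + 5, hj⟩ : Fin (N + 1)))
    rwa [show 1 * (DD n - 1) + 1 = DD n by omega] at this

/-- evaluation at the point `(0 : 1 : ⋯ : 1)` -/
noncomputable def ev : MvPolynomial (Fin (N + 1)) K →ₐ[K] K :=
  aeval (fun i : Fin (N + 1) => if i.val = 0 then (0 : K) else 1)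

lemma ev_x0 : ev K (x K hN 0 (by omega)) = 0 := by simp [ev, x]

lemma ev_xs (k : ℕ) (hk : k + 1 ≤ 4) : ev K (x K hN (k + 1) hk) = 1 := by simp [ev, x]

lemma ev_M (n : ℕ) : ev K (M K hN n) = 1 := by
  induction n using Nat.strong_induction_on with
  | _ n ih =>
    match n with
    | 0 => exact ev_xs K hN 0 (by omega)
    | 1 => exact ev_xs K hN 1 (by omega)
    | 2 => exact ev_xs K hN 2 (by omega)
    | n + 3 =>
      rw [M, map_mul, map_pow, ih (n + 2) (by omega), ih n (by omega)]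
      simp

lemma ev_E (n : ℕ) : ev K (E K hN n) = 1 := by
  have h1 := dd_odd (n + 1)
  rw [E, map_add, map_mul, map_mul, map_pow, map_pow, map_pow, ev_x0, ev_M, ev_M]
  rcases lt_or_ge (2 * dd n) (dd (n + 1)) with h | h
  · rw [zero_pow (by omega), show 2 * dd n - dd (n + 1) = 0 by omega]
    simp
  · rw [show dd (n + 1) - 2 * dd n = 0 by omega,
      zero_pow (n := 2 * dd n - dd (n + 1)) (by omega)]
    simp

lemma ev_Z (n : ℕ) : ev K (Z K hN n) = 1 := by
  induction n with
  | zero => exact ev_xs K hN 3 (by omega)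
  | succ n ih =>
    rw [Z, map_mul, map_pow, ih, ev_E]
    simp

/-- the `n`-th iterate -/
noncomputable def G (n : ℕ) : RatMap K N where
  poly := gp K hN n
  deg := DD n
  homog := gp_homog K hN n
  reduced := by
    intro c hc
    have h0 : c ∣ x K hN 0 (by omega) ^ DD n := by
      have := hc ⟨0, by omega⟩
      exact this
    have h4 : c ∣ Z K hN n := by
      have := hc ⟨4, by omega⟩
      exact this
    have hp : Prime (x K hN 0 (by omega)) := X_prime
    obtain ⟨i, _, hi⟩ := (dvd_prime_pow hp _).mp h0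
    rcases Nat.eq_zero_or_pos i with h | h
    · rw [h, pow_zero] at hi
      exact (associated_one_iff_isUnit.mp hi)
    · exfalso
      have h1 : x K hN 0 (by omega) ∣ Z K hN n :=
        (dvd_pow_self _ (by omega)).trans (hi.symm.dvd.trans h4)
      have h2 := map_dvd (ev K) h1
      rw [ev_x0, ev_Z] at h2
      exact one_ne_zero (zero_dvd_iff.mp h2)

lemma isComp_G (n : ℕ) : IsComp (G K hN 1) (G K hN n) (G K hN (n + 1)) := by
  refine ⟨x K hN 0 (by omega) ^ (2 * DD n - max (2 * dd n) (dd (n + 1))),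
    pow_ne_zero _ (X_ne_zero _), ?_⟩
  have hd2 := dd_le_DD n
  have hd1 := dd_mono (n + 1)
  have hd0 := dd_mono n
  have hd3 := dd_rec n
  have hD := DD_rec n
  rw [show n + 1 + 1 = n + 2 from rfl] at hd1
  have hpos := dd_pos n
  have hmax : max (2 * dd n) (dd (n + 1)) ≤ 2 * DD n := by
    apply max_le <;> omega
  have hmax2 : 2 * dd n ≤ max (2 * dd n) (dd (n + 1)) := le_max_left _ _
  have hx : ∀ (k : ℕ) (hk : k ≤ 4),
      aeval (gp K hN n) (x K hN k hk) = gp K hN n ⟨k, by omega⟩ := by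
    intro k hk
    rw [x, aeval_X]
  have g0 : gp K hN n ⟨0, by omega⟩ = x K hN 0 (by omega) ^ DD n := rfl
  have g1 : gp K hN n ⟨1, by omega⟩ = x K hN 0 (by omega) ^ (DD n - dd n) * M K hN n := rfl
  have g2 : gp K hN n ⟨2, by omega⟩ =
    x K hN 0 (by omega) ^ (DD n - dd (n + 1)) * M K hN (n + 1) := rfl
  have g3 : gp K hN n ⟨3, by omega⟩ =
    x K hN 0 (by omega) ^ (DD n - dd (n + 2)) * M K hN (n + 2) := rfl
  have g4 : gp K hN n ⟨4, by omega⟩ = Z K hN n := rfl
  have hDD1 : DD 1 = 6 := by decide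
  have hdd0 : dd 0 = 1 := by decide
  have hdd1 : dd 1 = 1 := by decide
  have hdd2 : dd 2 = 1 := by decide
  have hdd3 : dd 3 = 5 := by decide
  intro i
  change aeval (gp K hN n) (gp K hN 1 i) = _ * gp K hN (n + 1) i
  rcases i with ⟨i, hi⟩
  match i, hi with
  | 0, _ =>
    change aeval (gp K hN n) (x K hN 0 (by omega) ^ DD 1) = _ * x K hN 0 (by omega) ^ DD (n + 1)
    rw [map_pow, hx, g0, ← pow_mul, ← pow_add, hDD1]
    congr 1
    omega
  | 1, _ =>
    change aeval (gp K hN n) (x K hN 0 (by omega) ^ (DD 1 - dd 1) * x K hN 2 (by omega)) =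
      _ * (x K hN 0 (by omega) ^ (DD (n + 1) - dd (n + 1)) * M K hN (n + 1))
    rw [map_mul, map_pow, hx, hx, g0, g2, ← pow_mul, ← mul_assoc, ← mul_assoc, ← pow_add,
      ← pow_add, hDD1, hdd1]
    congr 2
    omega
  | 2, _ =>
    change aeval (gp K hN n) (x K hN 0 (by omega) ^ (DD 1 - dd 2) * x K hN 3 (by omega)) =
      _ * (x K hN 0 (by omega) ^ (DD (n + 1) - dd (n + 2)) * M K hN (n + 2))
    rw [map_mul, map_pow, hx, hx, g0, g3, ← pow_mul, ← mul_assoc, ← mul_assoc, ← pow_add,
      ← pow_add, hDD1, hdd2]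
    congr 2
    omega
  | 3, _ =>
    change aeval (gp K hN n) (x K hN 0 (by omega) ^ (DD 1 - dd 3) *
        (x K hN 3 (by omega) * x K hN 1 (by omega) ^ 4)) =
      _ * (x K hN 0 (by omega) ^ (DD (n + 1) - dd (n + 3)) * (M K hN (n + 2) * M K hN n ^ 4))
    rw [map_mul, map_mul, map_pow, map_pow, hx, hx, hx, g0, g1, g3, hDD1, hdd3]
    have e1 : (x K hN 0 (by omega) ^ DD n) ^ (6 - 5) *
        (x K hN 0 (by omega) ^ (DD n - dd (n + 2)) * M K hN (n + 2) *
          (x K hN 0 (by omega) ^ (DD n - dd n) * M K hN n) ^ 4) =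
        x K hN 0 (by omega) ^ (DD n + (DD n - dd (n + 2)) + (DD n - dd n) * 4) *
          (M K hN (n + 2) * M K hN n ^ 4) := by
      rw [pow_add, pow_add, pow_mul, mul_pow]
      ring
    rw [e1, ← mul_assoc (x K hN 0 (by omega) ^ (2 * DD n - max (2 * dd n) (dd (n + 1)))),
      ← pow_add]
    congr 2
    omega
  | 4, _ =>
    change aeval (gp K hN n) (x K hN 4 (by omega) ^ 4 *
        (x K hN 0 (by omega) ^ (dd 1 - 2 * dd 0) * x K hN 1 (by omega) ^ 2 +
          x K hN 0 (by omega) ^ (2 * dd 0 - dd 1) * x K hN 2 (by omega))) =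
      _ * (Z K hN n ^ 4 * E K hN n)
    rw [map_mul, map_add, map_mul, map_mul, map_pow, map_pow, map_pow, map_pow, hx, hx, hx, hx,
      g0, g1, g2, g4, hdd0, hdd1, E]
    have e1 : (x K hN 0 (by omega) ^ DD n) ^ (1 - 2 * 1) *
        (x K hN 0 (by omega) ^ (DD n - dd n) * M K hN n) ^ 2 =
        x K hN 0 (by omega) ^ ((DD n - dd n) * 2) * M K hN n ^ 2 := by
      rw [mul_pow, ← pow_mul, show 1 - 2 * 1 = 0 from rfl, mul_zero, pow_zero, one_mul, ← pow_mul]
    have e2 : (x K hN 0 (by omega) ^ DD n) ^ (2 * 1 - 1) *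
        (x K hN 0 (by omega) ^ (DD n - dd (n + 1)) * M K hN (n + 1)) =
        x K hN 0 (by omega) ^ (DD n + (DD n - dd (n + 1))) * M K hN (n + 1) := by
      rw [pow_add]
      ring
    rw [e1, e2, mul_add, mul_add, mul_add]
    congr 1
    · rcases le_total (2 * dd n) (dd (n + 1)) with h | h
      · rw [max_eq_right h]
        have : (DD n - dd n) * 2 = (2 * DD n - dd (n + 1)) + (dd (n + 1) - 2 * dd n) := by omega
        rw [this, pow_add]
        ring
      · rw [max_eq_left h]
        have : (DD n - dd n) * 2 = (2 * DD n - 2 * dd n) + (dd (n + 1) - 2 * dd n) := by omega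
        rw [this, pow_add]
        ring
    · rcases le_total (2 * dd n) (dd (n + 1)) with h | h
      · rw [max_eq_right h]
        have : DD n + (DD n - dd (n + 1)) = (2 * DD n - dd (n + 1)) + (2 * dd n - dd (n + 1)) := by
          omega
        rw [this, pow_add]
        ring
      · rw [max_eq_left h]
        have : DD n + (DD n - dd (n + 1)) = (2 * DD n - 2 * dd n) + (2 * dd n - dd (n + 1)) := by
          omega
        rw [this, pow_add]
        ring
  | j + 5, hj =>
    change aeval (gp K hN n) (x K hN 0 (by omega) ^ (DD 1 - 1) * X (⟨j + 5, hj⟩ : Fin (N + 1))) =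
      _ * (x K hN 0 (by omega) ^ (DD (n + 1) - 1) * X (⟨j + 5, hj⟩ : Fin (N + 1)))
    have g5 : gp K hN n ⟨j + 5, hj⟩ =
      x K hN 0 (by omega) ^ (DD n - 1) * X (⟨j + 5, hj⟩ : Fin (N + 1)) := rfl
    rw [map_mul, map_pow, hx, aeval_X, g0, g5, ← pow_mul, ← mul_assoc, ← mul_assoc, ← pow_add,
      ← pow_add, hDD1]
    congr 2
    omega

/-! ### Dominance -/

lemma dominant_G : (G K hN 1).IsDominant := by
  classical
  set f := gp K hN 1 with hf
  set S := Algebra.adjoin K (Set.range f) with hS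
  have hfS : ∀ i, IsAlgebraic S (f i) := by
    intro i
    have : f i ∈ S := Algebra.subset_adjoin ⟨i, rfl⟩
    exact isAlgebraic_algebraMap (⟨f i, this⟩ : S)
  have hnz : ∀ (k : ℕ) (hk : k ≤ 4), x K hN k hk ≠ 0 := fun k hk => X_ne_zero _
  have hx0 : IsAlgebraic S (x K hN 0 (by omega)) := by
    have h := hfS ⟨0, by omega⟩
    have h2 : f ⟨0, by omega⟩ = x K hN 0 (by omega) ^ DD 1 := rfl
    rw [h2] at h
    exact IsAlgebraic.of_pow (by decide) h
  have hmul : ∀ {a b : MvPolynomial (Fin (N + 1)) K}, a ≠ 0 → IsAlgebraic S a →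
      IsAlgebraic S (a * b) → IsAlgebraic S b := by
    intro a b ha h1 h2
    exact IsAlgebraic.of_mul (mem_nonZeroDivisors_of_ne_zero ha) h1 h2
  have hx2 : IsAlgebraic S (x K hN 2 (by omega)) := by
    have h := hfS ⟨1, by omega⟩
    have h2 : f ⟨1, by omega⟩ = x K hN 0 (by omega) ^ (DD 1 - dd 1) * x K hN 2 (by omega) := rfl
    rw [h2] at h
    exact hmul (pow_ne_zero _ (hnz 0 _)) (hx0.pow _) h
  have hx3 : IsAlgebraic S (x K hN 3 (by omega)) := by
    have h := hfS ⟨2, by omega⟩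
    have h2 : f ⟨2, by omega⟩ = x K hN 0 (by omega) ^ (DD 1 - dd 2) * x K hN 3 (by omega) := rfl
    rw [h2] at h
    exact hmul (pow_ne_zero _ (hnz 0 _)) (hx0.pow _) h
  have hx1 : IsAlgebraic S (x K hN 1 (by omega)) := by
    have h := hfS ⟨3, by omega⟩
    have h2 : f ⟨3, by omega⟩ = x K hN 0 (by omega) ^ (DD 1 - dd 3) *
        (x K hN 3 (by omega) * x K hN 1 (by omega) ^ 4) := rfl
    rw [h2] at h
    have h3 := hmul (pow_ne_zero _ (hnz 0 _)) (hx0.pow _) h
    exact IsAlgebraic.of_pow (by norm_num) (hmul (hnz 3 _) hx3 h3)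
  have hx4 : IsAlgebraic S (x K hN 4 (by omega)) := by
    have h := hfS ⟨4, by omega⟩
    have h2 : f ⟨4, by omega⟩ = x K hN 4 (by omega) ^ 4 * E K hN 0 := rfl
    rw [h2, mul_comm] at h
    have hE : IsAlgebraic S (E K hN 0) := by
      have : E K hN 0 = x K hN 0 (by omega) ^ (dd 1 - 2 * dd 0) * x K hN 1 (by omega) ^ 2 +
          x K hN 0 (by omega) ^ (2 * dd 0 - dd 1) * x K hN 2 (by omega) := rfl
      rw [this]
      exact ((hx0.pow _).mul (hx1.pow _)).add ((hx0.pow _).mul hx2)
    have hE0 : E K hN 0 ≠ 0 := by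
      intro h0
      have := ev_E K hN 0
      rw [h0, map_zero] at this
      exact zero_ne_one this
    exact IsAlgebraic.of_pow (by norm_num) (hmul hE0 hE h)
  have hX : ∀ i : Fin (N + 1), IsAlgebraic S (X i : MvPolynomial (Fin (N + 1)) K) := by
    intro i
    rcases i with ⟨i, hi⟩
    match i, hi with
    | 0, _ => exact hx0
    | 1, _ => exact hx1
    | 2, _ => exact hx2
    | 3, _ => exact hx3
    | 4, _ => exact hx4
    | j + 5, hj =>
      have h := hfS ⟨j + 5, hj⟩
      have h2 : f ⟨j + 5, hj⟩ = x K hN 0 (by omega) ^ (DD 1 - 1) *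
        X (⟨j + 5, hj⟩ : Fin (N + 1)) := rfl
      rw [h2] at h
      exact hmul (pow_ne_zero _ (hnz 0 _)) (hx0.pow _) h
  have hall : ∀ p : MvPolynomial (Fin (N + 1)) K, IsAlgebraic S p := by
    intro p
    induction p using MvPolynomial.induction_on with
    | C a =>
      have : (C a : MvPolynomial (Fin (N + 1)) K) = algebraMap S _ (algebraMap K S a) := rfl
      rw [this]
      exact isAlgebraic_algebraMap _
    | add p q hp hq => exact hp.add hq
    | mul_X p i hp => exact hp.mul (hX i)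
  have : Algebra.IsAlgebraic S (MvPolynomial (Fin (N + 1)) K) := ⟨hall⟩
  have hle : Cardinal.lift.{u} (Cardinal.mk (Fin (N + 1))) ≤
      Cardinal.lift.{0} (Algebra.trdeg K (MvPolynomial (Fin (N + 1)) K)) := by
    rw [MvPolynomial.trdeg_of_isDomain]
    simp
  exact (Algebra.IsAlgebraic.isTranscendenceBasis_of_lift_le_trdeg_of_finite K f hle).1

end Poly

/-! ### Uniqueness of iterates up to scalars -/

lemma aeval_C_mul {φ : MvPolynomial (Fin (N + 1)) K} {n : ℕ} (hφ : φ.IsHomogeneous n)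
    (u : K) (g : Fin (N + 1) → MvPolynomial (Fin (N + 1)) K) :
    aeval (fun i => C u * g i) φ = C u ^ n * aeval g φ := by
  rw [φ.as_sum, map_sum, map_sum, Finset.mul_sum]
  refine Finset.sum_congr rfl fun s hs => ?_
  rw [aeval_monomial, aeval_monomial]
  have hs' : s.degree = n := by
    by_contra hcon
    exact (mem_support_iff.mp hs) (hφ.coeff_eq_zero hcon)
  simp only [mul_pow]
  rw [Finsupp.prod_mul]
  have : (s.prod fun a b => (C u : MvPolynomial (Fin (N + 1)) K) ^ b) = C u ^ n := by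
    rw [Finsupp.prod, Finset.prod_pow_eq_pow_sum, ← hs']
    rfl
  rw [this]
  ring

lemma eq_of_reduced (h h' : RatMap K N) {c c' : MvPolynomial (Fin (N + 1)) K} (hc : c ≠ 0)
    (heq : ∀ i, c * h.poly i = c' * h'.poly i) :
    ∃ u : K, u ≠ 0 ∧ ∀ i, h.poly i = C u * h'.poly i := by
  obtain ⟨a, a', g, hrel, ha, ha'⟩ := UniqueFactorizationMonoid.exists_reduced_factors c hc c'
  have hg : g ≠ 0 := by
    rintro rfl
    rw [zero_mul] at ha
    exact hc ha.symm
  have h1 : ∀ i, a * h.poly i = a' * h'.poly i := by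
    intro i
    have := heq i
    rw [← ha, ← ha', mul_assoc, mul_assoc] at this
    exact mul_left_cancel₀ hg this
  have hua : IsUnit a := h'.reduced a fun i =>
    hrel.dvd_of_dvd_mul_left ⟨_, (h1 i).symm⟩
  have hua' : IsUnit a' := h.reduced a' fun i =>
    hrel.symm.dvd_of_dvd_mul_left ⟨_, h1 i⟩
  obtain ⟨r, hr, rfl⟩ := isUnit_iff_eq_C_of_isReduced.mp hua
  obtain ⟨r', hr', rfl⟩ := isUnit_iff_eq_C_of_isReduced.mp hua'
  have hr0 := hr.ne_zero
  have hr0' := hr'.ne_zero
  refine ⟨r⁻¹ * r', mul_ne_zero (inv_ne_zero hr0) hr0', fun i => ?_⟩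
  have h2 := h1 i
  have h3 : (C r⁻¹ : MvPolynomial (Fin (N + 1)) K) * C r = 1 := by
    rw [← C_mul, inv_mul_cancel₀ hr0, C_1]
  calc h.poly i = (C r⁻¹ * C r) * h.poly i := by rw [h3, one_mul]
    _ = C r⁻¹ * (C r * h.poly i) := by ring
    _ = C r⁻¹ * (C r' * h'.poly i) := by rw [h2]
    _ = C (r⁻¹ * r') * h'.poly i := by rw [C_mul]; ring

lemma deg_eq {h h' : RatMap K N} {u : K} (heq : ∀ i, h.poly i = C u * h'.poly i) :
    h.deg = h'.deg := by
  have hex : ∃ i, h.poly i ≠ 0 := by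
    by_contra hcon
    push Not at hcon
    have := h.reduced 0 (fun i => by rw [hcon i])
    exact not_isUnit_zero this
  obtain ⟨i, hi⟩ := hex
  have h1 := h.homog i
  have h2 := (h'.homog i).C_mul u
  rw [← heq i] at h2
  exact h1.inj_right h2 hi

lemma iterates_unique {f : RatMap K N} {G G' : ℕ → RatMap K N} (hG : IsIterateSeq f G)
    (hG' : IsIterateSeq f G') (n : ℕ) (hn : 1 ≤ n) :
    ∃ u : K, u ≠ 0 ∧ ∀ i, (G n).poly i = C u * (G' n).poly i := by
  induction n, hn using Nat.le_induction with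
  | base => exact ⟨1, one_ne_zero, fun i => by rw [hG.1, hG'.1, C_1, one_mul]⟩
  | succ n hn ih =>
    obtain ⟨u, _, h⟩ := ih
    obtain ⟨c, hc, hc1⟩ := hG.2 n hn
    obtain ⟨c', _, hc1'⟩ := hG'.2 n hn
    refine eq_of_reduced (G (n + 1)) (G' (n + 1)) (c' := C u ^ f.deg * c') hc fun i => ?_
    rw [← hc1 i, mul_assoc, ← hc1' i]
    have : (G n).poly = fun i => C u * (G' n).poly i := funext h
    rw [this, aeval_C_mul (f.homog i)]

/-! ### From linear recurrences to a finite-dimensional space -/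

lemma exists_space_of_rec {y : ℕ → ℂ} {k : ℕ} (hk : 1 ≤ k) {c : Fin k → ℂ}
    (h : ∀ n, y (n + k) = ∑ j : Fin k, c j * y (n + j)) :
    ∃ V : Submodule ℂ (ℕ → ℂ), FiniteDimensional ℂ V ∧ (∀ z ∈ V, shift z ∈ V) ∧ y ∈ V := by
  refine ⟨Submodule.span ℂ (Set.range fun j : Fin k => (shift ^ (j : ℕ)) y),
    FiniteDimensional.span_of_finite ℂ (Set.finite_range _), ?_, ?_⟩
  · intro z hz
    induction hz using Submodule.span_induction with
    | mem z hz =>
      obtain ⟨j, rfl⟩ := hz
      simp only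
      rw [← Module.End.mul_apply, ← pow_succ']
      rcases lt_or_ge ((j : ℕ) + 1) k with hj | hj
      · exact Submodule.subset_span ⟨⟨j + 1, hj⟩, rfl⟩
      · have hjk : (j : ℕ) + 1 = k := by have := j.2; omega
        rw [hjk]
        have : (shift ^ k) y = ∑ j : Fin k, c j • (shift ^ (j : ℕ)) y := by
          funext n
          rw [shift_pow_apply, h n, Finset.sum_apply]
          refine Finset.sum_congr rfl fun j _ => ?_
          rw [Pi.smul_apply, shift_pow_apply, smul_eq_mul]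
        rw [this]
        exact Submodule.sum_mem _ fun j _ => Submodule.smul_mem _ _
          (Submodule.subset_span ⟨j, rfl⟩)
    | zero => rw [map_zero]; exact Submodule.zero_mem _
    | add x y _ _ hx hy => rw [map_add]; exact Submodule.add_mem _ hx hy
    | smul a x _ hx => rw [map_smul]; exact Submodule.smul_mem _ _ hx
  · exact Submodule.subset_span ⟨⟨0, by omega⟩, by simp⟩

lemma DD_not_piecewise : ¬ IsPiecewiseLinRec DD := by
  rintro ⟨r, L, ι, hL, hcov⟩
  have h1 : ∀ i, ∃ V : Submodule ℂ (ℕ → ℂ), FiniteDimensional ℂ V ∧ (∀ z ∈ V, shift z ∈ V) ∧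
      (fun n => L i (n + 1)) ∈ V := by
    intro i
    obtain ⟨k, hk, c, hc⟩ := hL i
    refine exists_space_of_rec (c := c) hk fun n => ?_
    have := hc (n + 1) (by omega)
    rw [show n + k + 1 = n + 1 + k by ring, this]
    refine Finset.sum_congr rfl fun j _ => ?_
    rw [show n + 1 + (j : ℕ) = n + j + 1 by ring]
  choose V hVfin hVshift hVmem using h1
  obtain ⟨V0, hV0fin, hV0shift, hV0mem⟩ : ∃ V : Submodule ℂ (ℕ → ℂ), FiniteDimensional ℂ V ∧
      (∀ z ∈ V, shift z ∈ V) ∧ (fun n => ((dd (n + 1) : ℤ) : ℂ)) ∈ V := by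
    refine exists_space_of_rec (k := 3) (c := ![4, 0, 1]) (by norm_num) fun n => ?_
    simp only [Fin.sum_univ_three]
    rw [show n + 3 + 1 = (n + 1) + 3 by ring, dd_rec]
    simp
    rw [show n + 1 + 2 = n + 2 + 1 by ring]
    ring
  have := hV0fin
  have := hVfin
  let W : Submodule ℂ (ℕ → ℂ) := V0 ⊔ ⨆ i, V i
  have : FiniteDimensional ℂ (⨆ i, V i : Submodule ℂ (ℕ → ℂ)) :=
    Submodule.finiteDimensional_iSup _
  have : FiniteDimensional ℂ W := Submodule.finiteDimensional_sup _ _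
  have hWshift : ∀ z ∈ W, shift z ∈ W := by
    have : W ≤ W.comap shift := by
      refine sup_le (fun z hz => ?_) (iSup_le fun i z hz => ?_)
      · exact (le_sup_left : V0 ≤ W) (hV0shift z hz)
      · exact ((le_iSup V i).trans (le_sup_right : _ ≤ W)) (hVshift i z hz)
    exact fun z hz => this hz
  refine core (fun n => (dd (n + 1) : ℤ)) (fun n => (DD (n + 1) : ℤ)) ?_ ?_ ?_ r
    (fun i n => L i (n + 1)) (fun n => ι (n + 1)) W hWshift ?_ ?_ ?_
  · intro n
    rw [show n + 3 + 1 = (n + 1) + 3 by ring, dd_rec]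
    push_cast
    rfl
  · intro n
    have := dd_odd (n + 1 + 1)
    rw [Int.odd_iff]
    omega
  · intro n
    rw [DD_rec]
    push_cast
    rfl
  · exact fun i => ((le_iSup V i).trans (le_sup_right : _ ≤ W)) (hVmem i)
  · exact (le_sup_left : V0 ≤ W) hV0mem
  · intro n
    have := hcov (n + 1) (by omega)
    simpa using this

/-- **Main theorem.** For every field `K` and every `N ≥ 4` there is a dominant rational map `f`
of `ℙ^N` over `K` whose degree sequence `deg (f ^ n)`, `n ≥ 1`, is not given by finitely many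
constant-coefficient linear recurrence sequences. -/
theorem result (K : Type u) [Field K] (N : ℕ) (hN : 4 ≤ N) :
    ∃ f : RatMap K N, f.IsDominant ∧ (∃ G, IsIterateSeq f G) ∧
      ∀ G, IsIterateSeq f G → ¬ IsPiecewiseLinRec (fun n => (G n).deg) := by
  have hit : IsIterateSeq (G K hN 1) (G K hN) := ⟨rfl, fun n _ => isComp_G K hN n⟩
  refine ⟨G K hN 1, dominant_G K hN, ⟨G K hN, hit⟩, fun G' hG' hpw => DD_not_piecewise ?_⟩
  obtain ⟨r, L, ι, hL, hcov⟩ := hpw
  refine ⟨r, L, ι, hL, fun n hn => ?_⟩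
  rw [← hcov n hn]
  obtain ⟨u, _, h⟩ := iterates_unique hG' hit n hn
  have := deg_eq h
  simp only [this]
  rfl

end Pool.Agent.Results.MP_3d9fc2_ag.NotPiecewiseRecurrent
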